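import Pool.Agent.Helper60.SB.WOne
import Pool.Agent.Helper60.SB.Order

/-!
MP_7fc85e_an, Q1: the order of the entropy numbers of the classes `W^r_p` and `H^r_p` in the uniform
norm, for every `d ≥ 3`, every `1 ≤ p ≤ ∞` and every `r > 1/p`.
-/

open MeasureTheory
open scoped ENNReal Real
open Pool.Agent.Helper60.SB

namespace Pool.Agent.Results.MP_7fc85e_an.FullOrder

/-- the sequence `a_n` for the classes `W^r_p` -/
noncomputable def aSeq (d : ℕ) (p : ℝ≥0∞) (r : ℝ) (n : ℕ) : ℝ :=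
  if p = 1 then (n : ℝ) ^ (-r) * Real.log n ^ (((d : ℝ) - 1) * r + 1)
  else if 1 / 2 < r then (n : ℝ) ^ (-r) * Real.log n ^ (((d : ℝ) - 1) * r + 1 / 2)
  else if r = 1 / 2 then
    (n : ℝ) ^ (-r) * Real.log n ^ ((d : ℝ) / 2) * Real.log (Real.log n) ^ (1 / 2 : ℝ)
  else (n : ℝ) ^ (-r) * Real.log n ^ (((d : ℝ) - 1) * (1 - r) + r)

/-- the sequence `b_n` for the classes `H^r_p` (it does not depend on `p`) -/
noncomputable def bSeq (d : ℕ) (r : ℝ) (n : ℕ) : ℝ :=
  if 1 / 2 < r then (n : ℝ) ^ (-r) * Real.log n ^ (((d : ℝ) - 1) * r + (d : ℝ) / 2)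
  else if r = 1 / 2 then
    (n : ℝ) ^ (-r) * Real.log n ^ ((d : ℝ) - 1 / 2) * Real.log (Real.log n)
  else (n : ℝ) ^ (-r) * Real.log n ^ ((d : ℝ) - 1 + r)

/-- For `d ≥ 3`, `1 ≤ p ≤ ∞` and `r > 1/p`: `ε_n(W^r_p, L_∞) ≍ a_n` and `ε_n(H^r_p, L_∞) ≍ b_n`
(real or complex scalars). For `p = ∞` the expression `1 / p.toReal` is `0`. -/
theorem result (d : ℕ) (hd : 3 ≤ d) (𝕜 : Type) [RCLike 𝕜] (p : ℝ≥0∞) (hp : 1 ≤ p)
    (r : ℝ) (hr : 1 / p.toReal < r) :
    (∃ c > 0, ∃ C > 0, ∃ n₀ : ℕ, ∀ n ≥ n₀,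
      ENNReal.ofReal (c * aSeq d p r n) ≤ entropyNumber n (Wclass d 𝕜 r p) ∧
      entropyNumber n (Wclass d 𝕜 r p) ≤ ENNReal.ofReal (C * aSeq d p r n)) ∧
    (∃ c > 0, ∃ C > 0, ∃ n₀ : ℕ, ∀ n ≥ n₀,
      ENNReal.ofReal (c * bSeq d r n) ≤ entropyNumber n (Hclass d 𝕜 r p) ∧
      entropyNumber n (Hclass d 𝕜 r p) ≤ ENNReal.ofReal (C * bSeq d r n)) := by
  constructor
  · by_cases h1 : p = 1
    · subst h1
      obtain ⟨e, rfl⟩ : ∃ e, d = e + 2 := ⟨d - 2, by omega⟩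
      obtain ⟨c, hc, C, hC, n₀, h⟩ := order_W_one e (by omega) r (by simpa using hr) 𝕜
      refine ⟨c, hc, C, hC, n₀, fun n hn => ?_⟩
      have h2 := h n hn
      have h3 : ((e : ℝ) + 1) * r + 1 = (((e + 2 : ℕ) : ℝ) - 1) * r + 1 := by push_cast; ring
      rw [h3, mul_assoc, mul_assoc] at h2
      unfold aSeq
      rw [if_pos rfl]
      exact h2
    · by_cases h2 : 1 / 2 < r
      · obtain ⟨c, hc, C, hC, n₀, h⟩ := order_W d (by omega) 𝕜 p (lt_of_le_of_ne hp (Ne.symm h1)) r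
          hr h2
        refine ⟨c, hc, C, hC, n₀, fun n hn => ?_⟩
        have h3 := h n hn
        rw [mul_assoc, mul_assoc] at h3
        unfold aSeq
        rw [if_neg h1, if_pos h2]
        exact h3
      · obtain ⟨e, rfl⟩ : ∃ e, d = e + 1 := ⟨d - 1, by omega⟩
        by_cases h3 : r = 1 / 2
        · subst h3
          obtain ⟨c, hc, C, hC, n₀, h⟩ := order_W_half e (by omega) 𝕜 p hp hr
          refine ⟨c, hc, C, hC, n₀, fun n hn => ?_⟩
          have h4 := h n hn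
          have h5 : ((e : ℝ) + 1) / 2 = ((e + 1 : ℕ) : ℝ) / 2 := by push_cast; ring
          rw [h5, mul_assoc, mul_assoc, mul_assoc, mul_assoc] at h4
          unfold aSeq
          rw [if_neg h1, if_neg h2, if_pos rfl, mul_assoc]
          exact h4
        · obtain ⟨c, hc, C, hC, n₀, h⟩ := order_W_small e (by omega) 𝕜 p hp r hr
            (lt_of_le_of_ne (not_lt.1 h2) h3)
          refine ⟨c, hc, C, hC, n₀, fun n hn => ?_⟩
          have h4 := h n hn
          have h5 : (e : ℝ) * (1 - r) + r = (((e + 1 : ℕ) : ℝ) - 1) * (1 - r) + r := by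
            push_cast; ring
          rw [h5, mul_assoc, mul_assoc] at h4
          unfold aSeq
          rw [if_neg h1, if_neg h2, if_neg h3]
          exact h4
  · by_cases h2 : 1 / 2 < r
    · obtain ⟨c, hc, C, hC, n₀, h⟩ := order_H d (by omega) 𝕜 p hp r hr h2
      refine ⟨c, hc, C, hC, n₀, fun n hn => ?_⟩
      have h3 := h n hn
      rw [mul_assoc, mul_assoc] at h3
      unfold bSeq
      rw [if_pos h2]
      exact h3
    · obtain ⟨e, rfl⟩ : ∃ e, d = e + 1 := ⟨d - 1, by omega⟩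
      by_cases h3 : r = 1 / 2
      · subst h3
        obtain ⟨c, hc, C, hC, n₀, h⟩ := order_H_half e (by omega) 𝕜 p hp hr
        refine ⟨c, hc, C, hC, n₀, fun n hn => ?_⟩
        have h4 := h n hn
        have h5 : (e : ℝ) + 1 / 2 = ((e + 1 : ℕ) : ℝ) - 1 / 2 := by push_cast; ring
        rw [h5, mul_assoc, mul_assoc, mul_assoc, mul_assoc] at h4
        unfold bSeq
        rw [if_neg h2, if_pos rfl, mul_assoc]
        exact h4
      · obtain ⟨c, hc, C, hC, n₀, h⟩ := order_H_small e (by omega) 𝕜 p hp r hr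
          (lt_of_le_of_ne (not_lt.1 h2) h3)
        refine ⟨c, hc, C, hC, n₀, fun n hn => ?_⟩
        have h4 := h n hn
        have h5 : (e : ℝ) + r = ((e + 1 : ℕ) : ℝ) - 1 + r := by push_cast; ring
        rw [h5, mul_assoc, mul_assoc] at h4
        unfold bSeq
        rw [if_neg h2, if_neg h3]
        exact h4

end Pool.Agent.Results.MP_7fc85e_an.FullOrder
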